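import Pool.Agent.H211.AD.Stm2

/-!
# Area under a nearly affine holomorphic function (task ARE of project AD211)
-/

set_option autoImplicit false

open Metric Set MeasureTheory Filter Topology

namespace Pool.Agent.H501.AD211

open Pool.Agent.H211.AD

/-- the derivative as a real linear map -/
noncomputable def dR (Φ : ℂ → ℂ) (w : ℂ) : ℂ →L[ℝ] ℂ :=
  (ContinuousLinearMap.smulRight (1 : ℂ →L[ℂ] ℂ) (deriv Φ w)).restrictScalars ℝ

theorem dR_det (Φ : ℂ → ℂ) (w : ℂ) : |(dR Φ w).det| = ‖deriv Φ w‖ ^ 2 := by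
  have h : (dR Φ w : ℂ →ₗ[ℝ] ℂ) = Algebra.lmul ℝ ℂ (deriv Φ w) := by
    ext x
    · simp [dR, mul_comm]
  have h2 : (dR Φ w).det = Algebra.norm ℝ (deriv Φ w) := by
    rw [Algebra.norm_apply, ← h]
  rw [h2, Algebra.norm_complex_apply, abs_of_nonneg (Complex.normSq_nonneg _),
    Complex.normSq_eq_norm_sq]

theorem dR_has {Φ : ℂ → ℂ} {w : ℂ} (h : DifferentiableAt ℂ Φ w) : HasFDerivAt Φ (dR Φ w) w :=
  h.hasDerivAt.hasFDerivAt.restrictScalars ℝ

theorem meas_pre {u : ℂ → ℂ} {B S : Set ℂ} (hB : IsOpen B) (hu : ContinuousOn u B)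
    (hS : MeasurableSet S) : MeasurableSet {a | a ∈ B ∧ u a ∈ S} := by
  have h3 : {a | a ∈ B ∧ u a ∈ S} = B ∩ u ⁻¹' S := rfl
  rw [h3]
  have h4 : Measurable (B.domRestrict u) := (continuousOn_iff_continuous_domRestrict.1 hu).measurable
  have h5 : B ∩ u ⁻¹' S = (fun y : B => (y : ℂ)) '' (B.domRestrict u ⁻¹' S) := by
    ext y
    constructor
    · rintro ⟨hy1, hy2⟩
      exact ⟨⟨y, hy1⟩, hy2, rfl⟩
    · rintro ⟨y', hy', rfl⟩
      exact ⟨y'.2, hy'⟩
  rw [h5]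
  exact (MeasurableEmbedding.subtype_coe hB.measurableSet).measurableSet_image.2 (h4 hS)

/-- nearly affine functions: distances -/
theorem na_dist {u : ℂ → ℂ} {a₀ : ℂ} {σ : ℝ} {D : ℂ} {e : ℝ} (h : NA u a₀ σ D e) {a b : ℂ}
    (ha : a ∈ ball a₀ σ) (hb : b ∈ ball a₀ σ) : ‖u a - u b - D * (a - b)‖ ≤ e * ‖D‖ * ‖a - b‖ := by
  obtain ⟨hd, -, he⟩ := h
  have h1 : ∀ x ∈ ball a₀ σ, DifferentiableAt ℂ u x := fun x hx =>
    hd.differentiableAt (isOpen_ball.mem_nhds hx)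
  have h2 : ∀ x ∈ ball a₀ σ, HasDerivAt (fun y => u y - D * y) (deriv u x - D) x := by
    intro x hx
    have h3 := (h1 x hx).hasDerivAt
    have h4 : HasDerivAt (fun y : ℂ => D * y) D x := by
      simpa using (hasDerivAt_id x).const_mul D
    exact h3.sub h4
  have h5 := (convex_ball a₀ σ).norm_image_sub_le_of_norm_hasDerivWithin_le
    (f := fun y => u y - D * y) (f' := fun x => deriv u x - D) (C := e * ‖D‖)
    (fun x hx => (h2 x hx).hasDerivWithinAt) (fun x hx => he x hx) hb ha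
  have h6 : u a - D * a - (u b - D * b) = u a - u b - D * (a - b) := by ring
  rwa [h6] at h5

theorem na_inj {u : ℂ → ℂ} {a₀ : ℂ} {σ : ℝ} {D : ℂ} (h : NA u a₀ σ D (3 / 4)) :
    InjOn u (ball a₀ σ) := by
  intro a ha b hb hab
  have h1 := na_dist h ha hb
  rw [hab, sub_self, zero_sub, norm_neg, norm_mul] at h1
  have hD : 0 < ‖D‖ := norm_pos_iff.mpr h.2.1
  have h2 : ‖a - b‖ ≤ 0 := by
    by_contra hc
    push Not at hc
    nlinarith [mul_pos hD hc]
  have h3 : ‖a - b‖ = 0 := le_antisymm h2 (norm_nonneg _)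
  exact sub_eq_zero.mp (norm_eq_zero.mp h3)

theorem t_ARE : S_ARE := by
  intro u a₀ σ D hna S
  have hinj := na_inj hna
  obtain ⟨hd, hD0, he⟩ := hna
  have hD : 0 < ‖D‖ := norm_pos_iff.mpr hD0
  set S' := toMeasurable volume S with hS'
  have hS'm : MeasurableSet S' := measurableSet_toMeasurable _ _
  have hvol : volume S' = volume S := measure_toMeasurable S
  set A : Set ℂ := {a | a ∈ ball a₀ σ ∧ u a ∈ S'} with hA
  have hAm : MeasurableSet A := meas_pre isOpen_ball hd.continuousOn hS'm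
  have hle : volume {a | a ∈ ball a₀ σ ∧ u a ∈ S} ≤ volume A :=
    measure_mono fun a ha => ⟨ha.1, subset_toMeasurable _ _ ha.2⟩
  refine le_trans hle ?_
  have hF := lintegral_abs_det_fderiv_eq_addHaar_image volume hAm
    (f := u) (f' := dR u) (fun y hy => (dR_has
      (hd.differentiableAt (isOpen_ball.mem_nhds hy.1))).hasFDerivWithinAt)
    (hinj.mono fun y hy => hy.1)
  have himg : volume (u '' A) ≤ volume S := by
    rw [← hvol]
    refine measure_mono ?_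
    rintro _ ⟨y, hy, rfl⟩
    exact hy.2
  have hlow : ENNReal.ofReal (‖D‖ ^ 2 / 16) * volume A ≤
      ∫⁻ y in A, ENNReal.ofReal |(dR u y).det| := by
    rw [← setLIntegral_const]
    refine setLIntegral_mono_ae' hAm ?_
    refine Eventually.of_forall fun y hy => ?_
    refine ENNReal.ofReal_le_ofReal ?_
    rw [dR_det]
    have h1 := he y hy.1
    have h2 : ‖D‖ ≤ ‖deriv u y‖ + ‖deriv u y - D‖ := by
      have : D = deriv u y - (deriv u y - D) := by ring
      calc ‖D‖ = ‖deriv u y - (deriv u y - D)‖ := by rw [← this]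
        _ ≤ _ := norm_sub_le _ _
    have h3 : ‖D‖ / 4 ≤ ‖deriv u y‖ := by linarith
    have h4 : (‖D‖ / 4) ^ 2 ≤ ‖deriv u y‖ ^ 2 := by
      have : 0 ≤ ‖D‖ / 4 := by positivity
      exact pow_le_pow_left₀ this h3 2
    calc ‖D‖ ^ 2 / 16 = (‖D‖ / 4) ^ 2 := by ring
      _ ≤ _ := h4
  have hfin : ENNReal.ofReal (‖D‖ ^ 2 / 16) * volume A ≤ volume S :=
    le_trans hlow (le_trans hF.le himg)
  have hprod : ENNReal.ofReal (16 / ‖D‖ ^ 2) * ENNReal.ofReal (‖D‖ ^ 2 / 16) = 1 := by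
    rw [← ENNReal.ofReal_mul (by positivity)]
    have : 16 / ‖D‖ ^ 2 * (‖D‖ ^ 2 / 16) = 1 := by
      field_simp
    rw [this, ENNReal.ofReal_one]
  calc volume A = ENNReal.ofReal (16 / ‖D‖ ^ 2) * ENNReal.ofReal (‖D‖ ^ 2 / 16) * volume A := by
        rw [hprod, one_mul]
    _ = ENNReal.ofReal (16 / ‖D‖ ^ 2) * (ENNReal.ofReal (‖D‖ ^ 2 / 16) * volume A) := by
        rw [mul_assoc]
    _ ≤ _ := by gcongr

end Pool.Agent.H501.AD211
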