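import Pool.Agent.H501.AD211.NL

/-!
# Curves of definite size (task BASE of project AD211)
-/

set_option autoImplicit false

open Metric Set MeasureTheory Filter Topology

namespace Pool.Agent.H501.AD211

open Pool.Agent.H211.AD

/-- the orbit of a point which is not attracted -/
lemma not_att {F : ℂ → ℂ → ℂ} {A : ℂ → ℂ → Prop} {f : ℂ → ℂ} {K : Set ℂ} {q : ℕ} {ρ₁ δ₁ C₁ : ℝ}
    (hF : Fam F A f K q ρ₁ δ₁ C₁) {ε rs : ℝ} (hε1 : ε ≤ δ₁)
    (hst : ∀ a : ℂ, ‖a‖ < rs → ∀ z, z ∉ cthickening ε K → A a z) {a : ℂ} (ha : ‖a‖ < rs)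
    (ha' : ‖a‖ < ρ₁) {z : ℂ} (hz : ¬ A a z) (i : ℕ) :
    ¬ A a ((F a)^[i] z) ∧ (F a)^[i] z ∈ cthickening ε K := by
  have h1 : ∀ w, ¬ A a w → w ∈ cthickening ε K := by
    intro w hw
    by_contra hc
    exact hw (hst a ha w hc)
  induction i with
  | zero => exact ⟨hz, h1 z hz⟩
  | succ i ih =>
    rw [Function.iterate_succ_apply']
    have h2 : ¬ A a (F a ((F a)^[i] z)) := by
      intro hA
      exact ih.1 (hF.step a _ ha' (cthickening_mono hε1 K ih.2) hA)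
    exact ⟨h2, h1 _ h2⟩

/-- shadowing by the unperturbed orbit for a short time -/
lemma shadow {f : ℂ → ℂ} {U K : Set ℂ} {Cr : Finset ℂ} {ℓ : ℂ → ℕ} {δ₀ Cp rp c₀ μ : ℝ}
    (h : Sys f U K Cr ℓ δ₀ Cp rp c₀ μ) {F : ℂ → ℂ → ℂ} {A : ℂ → ℂ → Prop} {q : ℕ}
    {ρ₁ δ₁ C₁ : ℝ} (hF : Fam F A f K q ρ₁ δ₁ C₁) {ε rs : ℝ} (hε0 : 0 < ε) (hε1 : ε ≤ δ₁)
    (hε2 : 2 * ε ≤ δ₀) (hst : ∀ a : ℂ, ‖a‖ < rs → ∀ z, z ∉ cthickening ε K → A a z) {a : ℂ}
    (ha : ‖a‖ < rs) (ha' : ‖a‖ < ρ₁) {z : ℂ} (hz : ¬ A a z) {Λ r : ℝ} (hΛ2 : 2 ≤ Λ)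
    (hΛ : ∀ w ∈ cthickening δ₀ K, ‖deriv f w‖ ≤ Λ) (har : ‖a‖ ^ q ≤ r) {T : ℕ}
    (hT : C₁ * r * Λ ^ (2 * T) ≤ ε) (hr : 0 ≤ r) :
    ∀ i ≤ T, f^[i] z ∈ cthickening (2 * ε) K ∧
      ‖f^[i] z - (F a)^[i] z‖ ≤ C₁ * r * i * Λ ^ i := by
  have hC := hF.C₁_pos
  have hΛ1 : 1 ≤ Λ := by linarith
  have hsmall : ∀ i ≤ T, C₁ * r * i * Λ ^ i ≤ ε := by
    intro i hi
    refine le_trans ?_ hT
    have h1 : (i : ℝ) ≤ Λ ^ i := by
      have h2 : (i : ℝ) ≤ 2 ^ i := by exact_mod_cast Nat.lt_two_pow_self.le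
      exact le_trans h2 (pow_le_pow_left₀ (by norm_num) hΛ2 i)
    calc C₁ * r * i * Λ ^ i ≤ C₁ * r * Λ ^ i * Λ ^ i := by
          refine mul_le_mul_of_nonneg_right ?_ (by positivity)
          exact mul_le_mul_of_nonneg_left h1 (by positivity)
      _ = C₁ * r * Λ ^ (2 * i) := by rw [mul_assoc, ← pow_add, two_mul]
      _ ≤ C₁ * r * Λ ^ (2 * T) := by
          refine mul_le_mul_of_nonneg_left ?_ (by positivity)
          exact pow_le_pow_right₀ hΛ1 (by omega)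
  have hcl : ∀ i ≤ T, ‖f^[i] z - (F a)^[i] z‖ ≤ C₁ * r * i * Λ ^ i →
      f^[i] z ∈ cthickening (2 * ε) K := by
    intro i hi hd
    have h1 := (not_att hF hε1 hst ha ha' hz i).2
    have h2 : ‖f^[i] z - (F a)^[i] z‖ ≤ ε := le_trans hd (hsmall i hi)
    rw [mem_cthickening_iff] at h1 ⊢
    have h3 : Metric.infEDist (f^[i] z) K ≤ edist (f^[i] z) ((F a)^[i] z) +
        Metric.infEDist ((F a)^[i] z) K := Metric.infEDist_le_edist_add_infEDist
    refine le_trans h3 ?_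
    have h4 : edist (f^[i] z) ((F a)^[i] z) ≤ ENNReal.ofReal ε := by
      rw [edist_dist, dist_eq_norm]
      exact ENNReal.ofReal_le_ofReal h2
    calc _ ≤ ENNReal.ofReal ε + ENNReal.ofReal ε := add_le_add h4 h1
      _ = ENNReal.ofReal (2 * ε) := by
          rw [← ENNReal.ofReal_add hε0.le hε0.le, two_mul]
  intro i
  induction i with
  | zero =>
    intro _
    have h1 : ‖f^[0] z - (F a)^[0] z‖ ≤ C₁ * r * (0 : ℕ) * Λ ^ 0 := by simp
    exact ⟨hcl 0 (Nat.zero_le _) h1, h1⟩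
  | succ i ih =>
    intro hi
    obtain ⟨hw, hd⟩ := ih (by omega)
    obtain ⟨-, hy⟩ := not_att hF hε1 hst ha ha' hz i
    set w := f^[i] z with hwdef
    set y := (F a)^[i] z with hydef
    have hdε : ‖w - y‖ ≤ ε := le_trans hd (hsmall i (by omega))
    have hsub : closedBall y ε ⊆ cthickening δ₀ K := by
      intro v hv
      rw [mem_closedBall] at hv
      rw [mem_cthickening_iff] at hy ⊢
      have h3 : Metric.infEDist v K ≤ edist v y + Metric.infEDist y K :=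
        Metric.infEDist_le_edist_add_infEDist
      refine le_trans h3 ?_
      have h4 : edist v y ≤ ENNReal.ofReal ε := by
        rw [edist_dist]
        exact ENNReal.ofReal_le_ofReal hv
      calc _ ≤ ENNReal.ofReal ε + ENNReal.ofReal ε := add_le_add h4 hy
        _ = ENNReal.ofReal (2 * ε) := by
            rw [← ENNReal.ofReal_add hε0.le hε0.le, two_mul]
        _ ≤ ENNReal.ofReal δ₀ := ENNReal.ofReal_le_ofReal hε2
    have hlip : ‖f w - f y‖ ≤ Λ * ‖w - y‖ := by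
      refine (convex_closedBall y ε).norm_image_sub_le_of_norm_deriv_le
        (fun v hv => h.diff.differentiableAt (h.openU.mem_nhds (h.thick (hsub hv))))
        (fun v hv => hΛ v (hsub hv)) (mem_closedBall_self hε0.le) ?_
      rw [mem_closedBall, dist_eq_norm]
      exact hdε
    have hclose : ‖F a y - f y‖ ≤ C₁ * r := by
      refine le_trans (hF.close a y ha' (cthickening_mono hε1 K hy)) ?_
      exact mul_le_mul_of_nonneg_left har hC.le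
    have h1 : ‖f^[i + 1] z - (F a)^[i + 1] z‖ ≤ C₁ * r * ((i + 1 : ℕ) : ℝ) * Λ ^ (i + 1) := by
      rw [Function.iterate_succ_apply', Function.iterate_succ_apply', ← hwdef, ← hydef]
      have h2 : f w - F a y = (f w - f y) - (F a y - f y) := by ring
      rw [h2]
      refine le_trans (norm_sub_le _ _) ?_
      have h3 : Λ * ‖w - y‖ ≤ Λ * (C₁ * r * i * Λ ^ i) :=
        mul_le_mul_of_nonneg_left hd (by linarith)
      have h4 : (1 : ℝ) ≤ Λ ^ (i + 1) := one_le_pow₀ hΛ1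
      have h5 : C₁ * r ≤ C₁ * r * Λ ^ (i + 1) := by
        have : 0 ≤ C₁ * r := by positivity
        nlinarith
      push_cast
      calc ‖f w - f y‖ + ‖F a y - f y‖ ≤ Λ * (C₁ * r * i * Λ ^ i) + C₁ * r * Λ ^ (i + 1) := by
            linarith
        _ = C₁ * r * ((i : ℝ) + 1) * Λ ^ (i + 1) := by ring
    exact ⟨hcl (i + 1) hi h1, h1⟩

theorem t_BASE (hARE : S_ARE) : S_BASE := by
  intro f U K Cr ℓ δ₀ Cp rp c₀ μ h F A q ρ₁ δ₁ C₁ hF δ D' ϱ hδ hϱ0 hϱ1 hvol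
  obtain ⟨M, hM1, hM⟩ := exists_bound h
  set Λ : ℝ := max M 2 with hΛdef
  have hΛ2 : 2 ≤ Λ := le_max_right _ _
  have hΛ : ∀ w ∈ cthickening δ₀ K, ‖deriv f w‖ ≤ Λ := fun w hw =>
    le_trans (hM w hw) (le_max_left _ _)
  have hδ₀ := h.δ₀_pos
  have hδ₁ := hF.δ₁_pos
  set ε : ℝ := min (min (δ / 2) (δ₁ / 2)) (δ₀ / 2) with hε
  have hε0 : 0 < ε := lt_min (lt_min (by positivity) (by positivity)) (by positivity)
  have hεδ : 2 * ε ≤ δ := by
    have : ε ≤ δ / 2 := le_trans (min_le_left _ _) (min_le_left _ _)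
    linarith
  have hεδ₁ : ε ≤ δ₁ := by
    have : ε ≤ δ₁ / 2 := le_trans (min_le_left _ _) (min_le_right _ _)
    linarith
  have hεδ₀ : 2 * ε ≤ δ₀ := by
    have : ε ≤ δ₀ / 2 := min_le_right _ _
    linarith
  obtain ⟨rs, hrs, hst⟩ := hF.stab ε hε0
  have hC := hF.C₁_pos
  have hρ₁ := hF.ρ₁_pos
  have hq := hF.q_pos
  set lΛ : ℝ := Real.log Λ with hlΛ
  have hlΛ0 : 0 < lΛ := Real.log_pos (by linarith)
  set lϱ : ℝ := -Real.log ϱ with hlϱ
  have hlϱ0 : 0 < lϱ := by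
    have := Real.log_neg hϱ0 hϱ1
    linarith
  set c₅ : ℝ := 1 / (4 * lΛ) with hc₅
  have hc₅0 : 0 < c₅ := by positivity
  set r₀ : ℝ := min (min 1 ((min rs ρ₁) ^ q)) ((ε / C₁) ^ 2) with hr₀
  have hmin0 : 0 < min rs ρ₁ := lt_min hrs hρ₁
  have hr₀0 : 0 < r₀ := lt_min (lt_min one_pos (pow_pos hmin0 _)) (by positivity)
  refine ⟨c₅ * lϱ / 4, by positivity, c₅ * lϱ / 2, by positivity,
    16 * |D'| * ϱ⁻¹ + 1, by positivity, r₀, hr₀0, ?_⟩
  intro r hr hrr₀ a₀ σ u D hσ har hna hDσ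
  have hr1 : r < 1 := lt_of_lt_of_le hrr₀ (le_trans (min_le_left _ _) (min_le_left _ _))
  have hrq : r < (min rs ρ₁) ^ q :=
    lt_of_lt_of_le hrr₀ (le_trans (min_le_left _ _) (min_le_right _ _))
  have hrε : r < (ε / C₁) ^ 2 := lt_of_lt_of_le hrr₀ (min_le_right _ _)
  set lr : ℝ := -Real.log r with hlr
  have hlr0 : 0 < lr := by
    have := Real.log_neg hr hr1
    linarith
  have hrexp : r = Real.exp (-lr) := by
    rw [hlr, neg_neg, Real.exp_log hr]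
  set T : ℕ := ⌊c₅ * lr⌋₊ with hT
  have hT1 : (T : ℝ) ≤ c₅ * lr := Nat.floor_le (by positivity)
  have hT2 : c₅ * lr - 1 ≤ T := by
    have := Nat.lt_floor_add_one (c₅ * lr)
    linarith
  -- the time is short enough
  have hTs : C₁ * r * Λ ^ (2 * T) ≤ ε := by
    have h1 : Λ ^ (2 * T) = Real.exp (2 * T * lΛ) := by
      have h0 : Real.exp ((2 * T : ℕ) * lΛ) = Real.exp lΛ ^ (2 * T) := Real.exp_nat_mul _ _
      rw [hlΛ, Real.exp_log (show (0 : ℝ) < Λ by linarith), ← hlΛ] at h0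
      rw [← h0]
      push_cast
      rfl
    have h2 : 2 * (T : ℝ) * lΛ ≤ lr / 2 := by
      calc 2 * (T : ℝ) * lΛ ≤ 2 * (c₅ * lr) * lΛ := by
            refine mul_le_mul_of_nonneg_right ?_ hlΛ0.le
            linarith
        _ = lr / 2 := by
            rw [hc₅]
            field_simp
            ring
    have h3 : r * Λ ^ (2 * T) ≤ Real.exp (-(lr / 2)) := by
      rw [h1]
      nth_rewrite 1 [hrexp]
      rw [← Real.exp_add]
      refine Real.exp_le_exp.mpr ?_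
      linarith
    have h4 : Real.exp (-(lr / 2)) < ε / C₁ := by
      refine lt_of_pow_lt_pow_left₀ 2 (by positivity) ?_
      have h5 : Real.exp (-(lr / 2)) ^ 2 = r := by
        rw [← Real.exp_nat_mul, hrexp]
        congr 1
        push_cast
        ring
      rw [h5]
      exact hrε
    have h5 : r * Λ ^ (2 * T) ≤ ε / C₁ := le_trans h3 h4.le
    rw [mul_assoc]
    calc C₁ * (r * Λ ^ (2 * T)) ≤ C₁ * (ε / C₁) := mul_le_mul_of_nonneg_left h5 hC.le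
      _ = ε := by field_simp
  have hsub : {a | a ∈ ball a₀ σ ∧ ¬ A a (u a)} ⊆
      {a | a ∈ ball a₀ σ ∧ u a ∈ E f U K δ T} := by
    rintro a ⟨ha, hA⟩
    have h1 := har a ha
    have h2 : ‖a‖ < min rs ρ₁ := lt_of_pow_lt_pow_left₀ q hmin0.le (lt_of_le_of_lt h1 hrq)
    have h3 := shadow h hF hε0 hεδ₁ hεδ₀ hst (lt_of_lt_of_le h2 (min_le_left _ _))
      (lt_of_lt_of_le h2 (min_le_right _ _)) hA hΛ2 hΛ h1 hTs hr.le
    refine ⟨ha, fun i hi => ?_, ?_⟩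
    · exact h.thick (cthickening_mono hεδ₀ K (h3 i hi.le).1)
    · exact cthickening_mono hεδ K (h3 T le_rfl).1
  have hD0 : 0 < ‖D‖ := norm_pos_iff.mpr hna.2.1
  refine le_trans (measure_mono hsub) (le_trans (hARE u a₀ σ D hna _) ?_)
  refine le_trans (mul_le_mul_right (hvol T) _) ?_
  rw [← ENNReal.ofReal_mul (by positivity)]
  refine ENNReal.ofReal_le_ofReal ?_
  -- the numbers
  have hϱT : ϱ ^ T ≤ ϱ⁻¹ * Real.exp (-(c₅ * lϱ * lr)) := by
    have h1 : ϱ ^ T = Real.exp (T * Real.log ϱ) := by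
      rw [Real.exp_nat_mul, Real.exp_log hϱ0]
    have h2 : ϱ⁻¹ = Real.exp lϱ := by
      rw [hlϱ, Real.exp_neg, Real.exp_log hϱ0]
    rw [h1, h2, ← Real.exp_add]
    refine Real.exp_le_exp.mpr ?_
    have h3 : Real.log ϱ = -lϱ := by rw [hlϱ, neg_neg]
    rw [h3]
    nlinarith
  have hDs : Real.exp (-(c₅ * lϱ / 4 * lr)) ≤ ‖D‖ * σ := by
    have h1 : r ^ (c₅ * lϱ / 4) = Real.exp (-(c₅ * lϱ / 4 * lr)) := by
      rw [Real.rpow_def_of_pos hr]
      congr 1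
      rw [hlr]
      ring
    rw [← h1]
    exact hDσ
  have hrc : r ^ (c₅ * lϱ / 2) = Real.exp (-(c₅ * lϱ / 2 * lr)) := by
    rw [Real.rpow_def_of_pos hr]
    congr 1
    rw [hlr]
    ring
  rw [hrc]
  have h16 : 16 / ‖D‖ ^ 2 ≤ 16 * σ ^ 2 * Real.exp (c₅ * lϱ / 2 * lr) := by
    rw [div_le_iff₀ (by positivity)]
    have h1 : Real.exp (-(c₅ * lϱ / 4 * lr)) ^ 2 ≤ (‖D‖ * σ) ^ 2 :=
      pow_le_pow_left₀ (Real.exp_pos _).le hDs 2
    have h2 : Real.exp (-(c₅ * lϱ / 4 * lr)) ^ 2 * Real.exp (c₅ * lϱ / 2 * lr) = 1 := by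
      rw [← Real.exp_nat_mul, ← Real.exp_add]
      have : ((2 : ℕ) : ℝ) * -(c₅ * lϱ / 4 * lr) + c₅ * lϱ / 2 * lr = 0 := by
        push_cast
        ring
      rw [this, Real.exp_zero]
    have h3 : 0 < Real.exp (c₅ * lϱ / 2 * lr) := Real.exp_pos _
    have h4 : 1 ≤ (‖D‖ * σ) ^ 2 * Real.exp (c₅ * lϱ / 2 * lr) := by
      calc 1 = Real.exp (-(c₅ * lϱ / 4 * lr)) ^ 2 * Real.exp (c₅ * lϱ / 2 * lr) := h2.symm
        _ ≤ _ := mul_le_mul_of_nonneg_right h1 h3.le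
    calc (16 : ℝ) = 16 * 1 := by ring
      _ ≤ 16 * ((‖D‖ * σ) ^ 2 * Real.exp (c₅ * lϱ / 2 * lr)) :=
          mul_le_mul_of_nonneg_left h4 (by norm_num)
      _ = 16 * σ ^ 2 * Real.exp (c₅ * lϱ / 2 * lr) * ‖D‖ ^ 2 := by ring
  have hprod : Real.exp (c₅ * lϱ / 2 * lr) * Real.exp (-(c₅ * lϱ * lr)) =
      Real.exp (-(c₅ * lϱ / 2 * lr)) := by
    rw [← Real.exp_add]
    congr 1
    ring
  calc 16 / ‖D‖ ^ 2 * (D' * ϱ ^ T) ≤ 16 / ‖D‖ ^ 2 * (|D'| * ϱ ^ T) := by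
        refine mul_le_mul_of_nonneg_left ?_ (by positivity)
        exact mul_le_mul_of_nonneg_right (le_abs_self _) (by positivity)
    _ ≤ (16 * σ ^ 2 * Real.exp (c₅ * lϱ / 2 * lr)) *
        (|D'| * (ϱ⁻¹ * Real.exp (-(c₅ * lϱ * lr)))) := by
        refine mul_le_mul h16 ?_ (by positivity) (by positivity)
        exact mul_le_mul_of_nonneg_left hϱT (abs_nonneg _)
    _ = 16 * |D'| * ϱ⁻¹ * σ ^ 2 *
        (Real.exp (c₅ * lϱ / 2 * lr) * Real.exp (-(c₅ * lϱ * lr))) := by ring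
    _ = 16 * |D'| * ϱ⁻¹ * Real.exp (-(c₅ * lϱ / 2 * lr)) * σ ^ 2 := by rw [hprod]; ring
    _ ≤ (16 * |D'| * ϱ⁻¹ + 1) * Real.exp (-(c₅ * lϱ / 2 * lr)) * σ ^ 2 := by
        refine mul_le_mul_of_nonneg_right ?_ (by positivity)
        refine mul_le_mul_of_nonneg_right ?_ (Real.exp_pos _).le
        linarith

end Pool.Agent.H501.AD211
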