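import Pool.Agent.H211.AD.Stm2

/-!
# Nonlinearity of `f` near the non-critical points of `K` (task NL of project AD211)
-/

set_option autoImplicit false

open Metric Set MeasureTheory Filter Topology

namespace Pool.Agent.H501.AD211

open Pool.Agent.H211.AD

section

variable {f : ℂ → ℂ} {U K : Set ℂ} {Cr : Finset ℂ} {ℓ : ℂ → ℕ} {δ₀ Cp rp c₀ μ : ℝ}

lemma K_sub_T (h : Sys f U K Cr ℓ δ₀ Cp rp c₀ μ) : K ⊆ cthickening δ₀ K :=
  self_subset_cthickening K

lemma K_sub_U (h : Sys f U K Cr ℓ δ₀ Cp rp c₀ μ) : K ⊆ U :=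
  fun _ hz => h.thick (K_sub_T h hz)

lemma deriv_ne (h : Sys f U K Cr ℓ δ₀ Cp rp c₀ μ) {z : ℂ} (hz : z ∈ K) (hc : z ∉ Cr) :
    deriv f z ≠ 0 := by
  intro h0
  rcases h.crit z (K_sub_U h hz) h0 with h1 | h1
  · exact hc h1
  · exact h1 0 ⟨fun i hi => absurd hi (Nat.not_lt_zero i), K_sub_T h hz⟩

lemma deriv_diff (h : Sys f U K Cr ℓ δ₀ Cp rp c₀ μ) : DifferentiableOn ℂ (deriv f) U :=
  h.diff.deriv h.openU

lemma cpt_T (h : Sys f U K Cr ℓ δ₀ Cp rp c₀ μ) : IsCompact (cthickening δ₀ K) :=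
  h.cpt.cthickening

/-- a bound of the derivative on the thickening -/
lemma exists_bound (h : Sys f U K Cr ℓ δ₀ Cp rp c₀ μ) :
    ∃ M : ℝ, 1 ≤ M ∧ ∀ z ∈ cthickening δ₀ K, ‖deriv f z‖ ≤ M := by
  obtain ⟨M, hM⟩ := (cpt_T h).exists_bound_of_continuousOn
    ((deriv_diff h).continuousOn.mono h.thick)
  exact ⟨max M 1, le_max_right _ _, fun z hz => le_trans (hM z hz) (le_max_left _ _)⟩

/-- a lower bound of the derivative away from the critical points -/
lemma exists_lower (h : Sys f U K Cr ℓ δ₀ Cp rp c₀ μ) {ρ : ℝ} (hρ : 0 < ρ) :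
    ∃ m : ℝ, 0 < m ∧ m ≤ 1 ∧ ∀ z ∈ K, ρ ≤ infDist z (Cr : Set ℂ) → m ≤ ‖deriv f z‖ := by
  set K' : Set ℂ := K ∩ {z | ρ ≤ infDist z (Cr : Set ℂ)} with hK'
  have hcl : IsClosed {z : ℂ | ρ ≤ infDist z (Cr : Set ℂ)} :=
    isClosed_le continuous_const (continuous_infDist_pt _)
  have hc : IsCompact K' := h.cpt.inter_right hcl
  rcases K'.eq_empty_or_nonempty with he | hne
  · refine ⟨1, one_pos, le_rfl, fun z hz hz2 => ?_⟩
    have : z ∈ K' := ⟨hz, hz2⟩
    rw [he] at this
    exact absurd this (notMem_empty z)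
  · have hcont : ContinuousOn (fun z => ‖deriv f z‖) K' :=
      ((deriv_diff h).continuousOn.mono fun z hz => K_sub_U h hz.1).norm
    obtain ⟨z₀, hz₀, hmin⟩ := hc.exists_isMinOn hne hcont
    have hz₀C : z₀ ∉ Cr := by
      intro hc'
      have h1 : infDist z₀ (Cr : Set ℂ) = 0 := infDist_zero_of_mem (by exact_mod_cast hc')
      have h2 : ρ ≤ infDist z₀ (Cr : Set ℂ) := hz₀.2
      linarith
    have hpos : 0 < ‖deriv f z₀‖ := norm_pos_iff.mpr (deriv_ne h hz₀.1 hz₀C)
    refine ⟨min ‖deriv f z₀‖ 1, lt_min hpos one_pos, min_le_right _ _, fun z hz hz2 => ?_⟩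
    exact le_trans (min_le_left _ _) (hmin (⟨hz, hz2⟩ : z ∈ K'))

end

theorem t_NL : S_NL := by
  intro f U K Cr ℓ δ₀ Cp rp c₀ μ h hne
  obtain ⟨M, hM1, hM⟩ := exists_bound h
  set ρ : ℝ := min (rp / 2) 1 with hρ
  have hρ0 : 0 < ρ := lt_min (by have := h.rp_pos; positivity) one_pos
  have hρ1 : ρ ≤ 1 := min_le_right _ _
  have hρrp : ρ ≤ rp / 2 := min_le_left _ _
  obtain ⟨m, hm0, hm1, hm⟩ := exists_lower h hρ0
  set Lx : ℕ := Cr.sup ℓ with hLx
  have hLc : ∀ c ∈ Cr, ℓ c ≤ Lx := fun c hc => Finset.le_sup hc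
  have hCp := h.Cp_ge
  set κ : ℝ := (min rp 1) ^ Lx with hκ
  have hminpos : 0 < min rp 1 := lt_min h.rp_pos one_pos
  have hκ0 : 0 < κ := pow_pos hminpos _
  have hδ := h.δ₀_pos
  -- constants
  set A1 : ℝ := 2 * (Cp * (Cp * 2 ^ Lx) + 1) with hA1
  set A2 : ℝ := 2 * M / (δ₀ * m) with hA2
  set A3 : ℝ := M / κ with hA3
  set A4 : ℝ := M / ρ with hA4
  have hA1p : 0 ≤ A1 := by positivity
  have hA2p : 0 ≤ A2 := by positivity
  have hA3p : 0 ≤ A3 := by positivity
  have hA4p : 0 ≤ A4 := by positivity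
  refine ⟨min (1 / 4) (δ₀ / 2), lt_min (by norm_num) (by positivity),
    A1 + A2 + A3 + A4 + Cp, by linarith, ?_⟩
  set C2 : ℝ := A1 + A2 + A3 + A4 + Cp with hC2
  set s : ℝ := min (1 / 4) (δ₀ / 2) with hs
  have hs4 : s ≤ 1 / 4 := min_le_left _ _
  have hsδ : s ≤ δ₀ / 2 := min_le_right _ _
  have hs0 : 0 < s := lt_min (by norm_num) (by positivity)
  intro z hz hzC
  have hd1 : dC Cr z ≤ 1 := min_le_left _ _
  have hdi : dC Cr z ≤ infDist z (Cr : Set ℂ) := min_le_right _ _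
  have hneC : (Cr : Set ℂ).Nonempty := by
    obtain ⟨c, hc⟩ := hne
    exact ⟨c, by exact_mod_cast hc⟩
  have hinf0 : 0 < infDist z (Cr : Set ℂ) := by
    refine (Cr.finite_toSet.isClosed.notMem_iff_infDist_pos hneC).mp ?_
    exact_mod_cast hzC
  have hd0 : 0 < dC Cr z := lt_min one_pos hinf0
  have hball : closedBall z (s * dC Cr z) ⊆ closedBall z (δ₀ / 2) := by
    refine closedBall_subset_closedBall ?_
    calc s * dC Cr z ≤ s * 1 := mul_le_mul_of_nonneg_left hd1 hs0.le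
      _ ≤ δ₀ / 2 := by linarith
  have hballT : closedBall z δ₀ ⊆ cthickening δ₀ K := closedBall_subset_cthickening hz δ₀
  have hdne : deriv f z ≠ 0 := deriv_ne h hz hzC
  have hdpos : 0 < ‖deriv f z‖ := norm_pos_iff.mpr hdne
  have hzT : z ∈ cthickening δ₀ K := K_sub_T h hz
  -- the nearest critical point
  obtain ⟨c, hcC, hcd⟩ : ∃ c ∈ (Cr : Set ℂ), infDist z (Cr : Set ℂ) = dist z c :=
    Cr.finite_toSet.isCompact.exists_infDist_eq_dist hneC z
  have hcC' : c ∈ Cr := by exact_mod_cast hcC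
  rw [dist_eq_norm] at hcd
  have hC2_1 : A1 ≤ C2 := by rw [hC2]; linarith
  have hC2_2 : A2 ≤ C2 := by rw [hC2]; linarith
  have hC2_3 : A3 ≤ C2 := by rw [hC2]; linarith
  have hC2_4 : A4 ≤ C2 := by rw [hC2]; linarith
  have hC2_5 : Cp ≤ C2 := by rw [hC2]; linarith
  refine ⟨fun y hy => hballT (closedBall_subset_closedBall (by linarith) (hball hy)), hdne,
    ?_, ?_, ?_⟩
  · intro y hy
    have hyd : dist y z ≤ s * dC Cr z := hy
    by_cases hcase : ‖z - c‖ ≤ ρ
    · -- near a critical point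
      have hzc : 0 < ‖z - c‖ := by rw [← hcd]; exact hinf0
      have hdc : dC Cr z ≤ ‖z - c‖ := by rw [← hcd]; exact hdi
      have hloc := h.loc c hcC'
      have hz1 := (hloc z (by linarith [h.rp_pos])).2.2.2.2
      have hsub : ∀ w ∈ ball z (‖z - c‖ / 2), w ∈ U ∧
          ‖deriv f w‖ ≤ Cp * (Cp * 2 ^ Lx) * ‖deriv f z‖ := by
        intro w hw
        have hw1 : ‖w - c‖ ≤ 3 / 2 * ‖z - c‖ := by
          have h1 : dist w z < ‖z - c‖ / 2 := hw
          rw [dist_eq_norm] at h1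
          have h2 : w - c = (w - z) + (z - c) := by ring
          rw [h2]
          have := norm_add_le (w - z) (z - c)
          linarith
        have hw2 : ‖w - c‖ ≤ rp := by linarith [h.rp_pos]
        have hl := hloc w hw2
        refine ⟨hl.1, ?_⟩
        have h3 : ‖w - c‖ ^ (ℓ c - 1) ≤ 2 ^ Lx * ‖z - c‖ ^ (ℓ c - 1) := by
          calc ‖w - c‖ ^ (ℓ c - 1) ≤ (2 * ‖z - c‖) ^ (ℓ c - 1) := by
                refine pow_le_pow_left₀ (norm_nonneg _) ?_ _
                linarith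
            _ = 2 ^ (ℓ c - 1) * ‖z - c‖ ^ (ℓ c - 1) := mul_pow _ _ _
            _ ≤ 2 ^ Lx * ‖z - c‖ ^ (ℓ c - 1) := by
                refine mul_le_mul_of_nonneg_right ?_ (by positivity)
                refine pow_le_pow_right₀ (by norm_num) ?_
                have := hLc c hcC'
                omega
        have h4 := hl.2.2.2.1
        calc ‖deriv f w‖ ≤ Cp * ‖w - c‖ ^ (ℓ c - 1) := h4
          _ ≤ Cp * (2 ^ Lx * ‖z - c‖ ^ (ℓ c - 1)) :=
              mul_le_mul_of_nonneg_left h3 (by linarith)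
          _ ≤ Cp * (2 ^ Lx * (Cp * ‖deriv f z‖)) := by
              refine mul_le_mul_of_nonneg_left ?_ (by linarith)
              exact mul_le_mul_of_nonneg_left hz1 (by positivity)
          _ = Cp * (Cp * 2 ^ Lx) * ‖deriv f z‖ := by ring
      have hmaps : MapsTo (deriv f) (ball z (‖z - c‖ / 2))
          (closedBall (deriv f z) ((Cp * (Cp * 2 ^ Lx) + 1) * ‖deriv f z‖)) := by
        intro w hw
        have h1 := (hsub w hw).2
        rw [mem_closedBall, dist_eq_norm]
        calc ‖deriv f w - deriv f z‖ ≤ ‖deriv f w‖ + ‖deriv f z‖ := norm_sub_le _ _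
          _ ≤ _ := by rw [add_mul]; linarith
      have hyb : y ∈ ball z (‖z - c‖ / 2) := by
        rw [mem_ball]
        have h1 : s * dC Cr z ≤ 1 / 4 * ‖z - c‖ := by
          refine mul_le_mul hs4 hdc hd0.le (by norm_num)
        linarith
      have hsch := Complex.dist_le_div_mul_dist_of_mapsTo_ball
        ((deriv_diff h).mono fun w hw => (hsub w hw).1) hmaps hyb
      rw [dist_eq_norm, dist_eq_norm] at hsch
      refine le_trans hsch ?_
      have h5 : (Cp * (Cp * 2 ^ Lx) + 1) * ‖deriv f z‖ / (‖z - c‖ / 2) * ‖y - z‖ =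
          A1 * ‖deriv f z‖ * (‖y - z‖ / ‖z - c‖) := by
        rw [hA1]
        field_simp
      rw [h5]
      have h6 : ‖y - z‖ / ‖z - c‖ ≤ ‖y - z‖ / dC Cr z :=
        div_le_div_of_nonneg_left (norm_nonneg _) hd0 hdc
      refine mul_le_mul ?_ h6 (by positivity) (by positivity)
      exact mul_le_mul_of_nonneg_right hC2_1 hdpos.le
    · -- away from the critical points
      have hml : m ≤ ‖deriv f z‖ := by
        refine hm z hz ?_
        rw [hcd]
        exact (not_le.mp hcase).le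
      have hmaps : MapsTo (deriv f) (ball z δ₀) (closedBall (deriv f z) (2 * M)) := by
        intro w hw
        rw [mem_closedBall, dist_eq_norm]
        have h1 := hM w (hballT (ball_subset_closedBall hw))
        have h2 := hM z hzT
        have := norm_sub_le (deriv f w) (deriv f z)
        linarith
      have hyb : y ∈ ball z δ₀ := by
        rw [mem_ball]
        have h1 := hball hy
        rw [mem_closedBall] at h1
        linarith
      have hsch := Complex.dist_le_div_mul_dist_of_mapsTo_ball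
        ((deriv_diff h).mono fun w hw => h.thick (hballT (ball_subset_closedBall hw))) hmaps hyb
      rw [dist_eq_norm, dist_eq_norm] at hsch
      refine le_trans hsch ?_
      have h5 : 2 * M / δ₀ * ‖y - z‖ = A2 * m * (‖y - z‖ / 1) := by
        rw [hA2]
        field_simp
      rw [h5]
      have h6 : ‖y - z‖ / 1 ≤ ‖y - z‖ / dC Cr z :=
        div_le_div_of_nonneg_left (norm_nonneg _) hd0 hd1
      refine mul_le_mul ?_ h6 (by positivity) (by positivity)
      exact mul_le_mul hC2_2 hml hm0.le (by positivity)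
  · by_cases hcase : ‖z - c‖ ≤ ρ
    · have h1 : dC Cr z = ‖z - c‖ := by
        unfold dC
        rw [hcd]
        exact min_eq_right (by linarith)
      rw [h1]
      have hl := (h.loc c hcC' z (by linarith [h.rp_pos])).2.2.2.1
      have h2 : ‖z - c‖ ^ (ℓ c - 1) ≤ ‖z - c‖ := by
        have h3 := h.deg c hcC'
        calc ‖z - c‖ ^ (ℓ c - 1) ≤ ‖z - c‖ ^ 1 :=
              pow_le_pow_of_le_one (norm_nonneg _) (by linarith) (by omega)
          _ = ‖z - c‖ := pow_one _
      calc ‖deriv f z‖ ≤ Cp * ‖z - c‖ ^ (ℓ c - 1) := hl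
        _ ≤ Cp * ‖z - c‖ := mul_le_mul_of_nonneg_left h2 (by linarith)
        _ ≤ C2 * ‖z - c‖ := mul_le_mul_of_nonneg_right hC2_5 (norm_nonneg _)
    · have h1 : ρ ≤ dC Cr z := by
        unfold dC
        rw [hcd]
        exact le_min hρ1 (not_le.mp hcase).le
      calc ‖deriv f z‖ ≤ M := hM z hzT
        _ = A4 * ρ := by rw [hA4]; field_simp
        _ ≤ C2 * dC Cr z := mul_le_mul hC2_4 h1 hρ0.le (by positivity)
  · intro c' hc'
    by_cases hcase : ‖z - c'‖ ≤ rp
    · have hl := (h.loc c' hc' z hcase).2.2.2.1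
      refine le_trans hl ?_
      exact mul_le_mul_of_nonneg_right hC2_5 (by positivity)
    · have h1 : κ ≤ ‖z - c'‖ ^ (ℓ c' - 1) := by
        have h2 : min rp 1 ≤ ‖z - c'‖ := le_trans (min_le_left _ _) (not_le.mp hcase).le
        calc κ = (min rp 1) ^ Lx := hκ
          _ ≤ (min rp 1) ^ (ℓ c' - 1) :=
              pow_le_pow_of_le_one hminpos.le (min_le_right _ _) (by
                have := hLc c' hc'
                omega)
          _ ≤ ‖z - c'‖ ^ (ℓ c' - 1) := pow_le_pow_left₀ hminpos.le h2 _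
      calc ‖deriv f z‖ ≤ M := hM z hzT
        _ = A3 * κ := by rw [hA3]; field_simp
        _ ≤ C2 * ‖z - c'‖ ^ (ℓ c' - 1) := mul_le_mul hC2_3 h1 hκ0.le (by positivity)

end Pool.Agent.H501.AD211
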