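import Pool.Agent.H211.AD.Stm2

/-!
# Following the orbit of a critical value with small errors (task FOL of project AD211)
-/

set_option autoImplicit false

open Metric Set MeasureTheory Filter Topology

namespace Pool.Agent.H501.AD211

open Pool.Agent.H211.AD

lemma sum_inv_sq (n : ℕ) :
    ∑ i ∈ Finset.range n, 1 / ((i : ℝ) + 1) ^ 2 ≤ 2 - 1 / (n : ℝ) := by
  induction n with
  | zero => simp
  | succ n ih =>
    rw [Finset.sum_range_succ]
    rcases Nat.eq_zero_or_pos n with h | h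
    · subst h
      norm_num
    · have hn : (0 : ℝ) < n := by exact_mod_cast h
      have h1 : 1 / ((n : ℝ) + 1) ^ 2 ≤ 1 / (n : ℝ) - 1 / ((n : ℝ) + 1) := by
        rw [div_sub_div _ _ hn.ne' (by positivity), div_le_div_iff₀ (by positivity) (by positivity)]
        nlinarith
      push_cast
      linarith

lemma sum_inv_sq_two (n : ℕ) : ∑ i ∈ Finset.range n, 1 / ((i : ℝ) + 1) ^ 2 ≤ 2 := by
  have h := sum_inv_sq n
  have h2 : (0 : ℝ) ≤ 1 / (n : ℝ) := by positivity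
  linarith

lemma sum_inv_sq_nn (n : ℕ) : 0 ≤ ∑ i ∈ Finset.range n, 1 / ((i : ℝ) + 1) ^ 2 :=
  Finset.sum_nonneg fun i _ => by positivity

section

variable {f : ℂ → ℂ} {z P D : ℕ → ℂ} {x : ℕ → ℝ} {C₂ S₀ : ℝ}

lemma P_ne (ho : Orb f z P D x C₂ S₀) (n : ℕ) : P n ≠ 0 := by
  induction n with
  | zero => rw [ho.P0]; exact one_ne_zero
  | succ n ih => rw [ho.Ps]; exact mul_ne_zero (ho.Dne n) ih

lemma S₀_nn (ho : Orb f z P D x C₂ S₀) : 0 ≤ S₀ := by
  have := ho.sum 0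
  simpa using this

/-- the first two parts -/
lemma fol_main (ho : Orb f z P D x C₂ S₀) {θ : ℝ} (hθ : 0 < θ) (h16 : 16 * C₂ * θ ≤ 1)
    (h4 : 4 * θ ≤ 1) {N : ℕ} {t e : ℝ} {y : ℕ → ℂ} (ht : 0 < t) (he0 : 0 ≤ e)
    (he : ∀ i < N, ‖y i - z i‖ ≤ x i → ‖y (i + 1) - f (y i)‖ ≤ e)
    (h0 : ‖y 0 - z 0‖ + S₀ * e ≤ t)
    (hst : ∀ i < N, t * ‖P i‖ ≤ θ / ((i : ℝ) + 1) ^ 2 * x i) :
    ∀ n ≤ N, (∀ i < n, ‖y i - z i‖ ≤ x i) ∧ ‖y n - z n‖ ≤ 2 * t * ‖P n‖ ∧
      ‖y n - z n - P n * ((y 0 - z 0) +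
        ∑ i ∈ Finset.range n, (y (i + 1) - f (y i)) / P (i + 1))‖ ≤
        4 * C₂ * θ * t * (∑ i ∈ Finset.range n, 1 / ((i : ℝ) + 1) ^ 2) * ‖P n‖ := by
  intro n
  have key : ∀ m : ℕ, m ≤ N → (∀ i < m, ‖y i - z i‖ ≤ x i) →
      ‖y m - z m - P m * ((y 0 - z 0) +
        ∑ i ∈ Finset.range m, (y (i + 1) - f (y i)) / P (i + 1))‖ ≤
        4 * C₂ * θ * t * (∑ i ∈ Finset.range m, 1 / ((i : ℝ) + 1) ^ 2) * ‖P m‖ →
      ‖y m - z m‖ ≤ 2 * t * ‖P m‖ := by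
    intro m hm hx hE
    have hPm : 0 < ‖P m‖ := norm_pos_iff.mpr (P_ne ho m)
    have hΔ : ‖(y 0 - z 0) + ∑ i ∈ Finset.range m, (y (i + 1) - f (y i)) / P (i + 1)‖ ≤ t := by
      refine le_trans (norm_add_le _ _) (le_trans ?_ h0)
      refine add_le_add le_rfl ?_
      refine le_trans (norm_sum_le _ _) ?_
      calc ∑ i ∈ Finset.range m, ‖(y (i + 1) - f (y i)) / P (i + 1)‖
          ≤ ∑ i ∈ Finset.range m, ‖P (i + 1)‖⁻¹ * e := by
            refine Finset.sum_le_sum fun i hi => ?_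
            rw [norm_div, div_eq_inv_mul]
            have hi' := Finset.mem_range.mp hi
            exact mul_le_mul_of_nonneg_left (he i (by omega) (hx i hi')) (by positivity)
        _ = (∑ i ∈ Finset.range m, ‖P (i + 1)‖⁻¹) * e := by rw [Finset.sum_mul]
        _ ≤ S₀ * e := mul_le_mul_of_nonneg_right (ho.sum m) he0
    have hE' : ‖y m - z m - P m * ((y 0 - z 0) +
        ∑ i ∈ Finset.range m, (y (i + 1) - f (y i)) / P (i + 1))‖ ≤ t * ‖P m‖ := by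
      refine le_trans hE ?_
      refine mul_le_mul_of_nonneg_right ?_ hPm.le
      have hs := sum_inv_sq_two m
      have hs' := sum_inv_sq_nn m
      have hc := ho.C₂nn
      have h1 : 4 * C₂ * θ * t * (∑ i ∈ Finset.range m, 1 / ((i : ℝ) + 1) ^ 2) ≤
          4 * C₂ * θ * t * 2 :=
        mul_le_mul_of_nonneg_left hs (by positivity)
      have h2 : (16 * C₂ * θ) * t ≤ 1 * t := mul_le_mul_of_nonneg_right h16 ht.le
      nlinarith
    have hsplit : y m - z m = (y m - z m - P m * ((y 0 - z 0) +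
        ∑ i ∈ Finset.range m, (y (i + 1) - f (y i)) / P (i + 1))) + P m * ((y 0 - z 0) +
        ∑ i ∈ Finset.range m, (y (i + 1) - f (y i)) / P (i + 1)) := by ring
    rw [hsplit]
    refine le_trans (norm_add_le _ _) ?_
    rw [norm_mul]
    have : ‖P m‖ * ‖(y 0 - z 0) + ∑ i ∈ Finset.range m, (y (i + 1) - f (y i)) / P (i + 1)‖ ≤
        ‖P m‖ * t := mul_le_mul_of_nonneg_left hΔ hPm.le
    linarith
  induction n with
  | zero =>
    intro _
    have h1 : ‖y 0 - z 0 - P 0 * ((y 0 - z 0) +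
        ∑ i ∈ Finset.range 0, (y (i + 1) - f (y i)) / P (i + 1))‖ ≤
        4 * C₂ * θ * t * (∑ i ∈ Finset.range 0, 1 / ((i : ℝ) + 1) ^ 2) * ‖P 0‖ := by
      rw [ho.P0]
      simp
    exact ⟨fun i hi => absurd hi (Nat.not_lt_zero i),
      key 0 (Nat.zero_le _) (fun i hi => absurd hi (Nat.not_lt_zero i)) h1, h1⟩
  | succ n ih =>
    intro hn
    obtain ⟨hx, hy, hE⟩ := ih (by omega)
    have hnN : n < N := by omega
    have hPn : 0 < ‖P n‖ := norm_pos_iff.mpr (P_ne ho n)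
    have hxn : 0 < x n := ho.xpos n
    have hsq : (1 : ℝ) ≤ ((n : ℝ) + 1) ^ 2 := by
      have : (0 : ℝ) ≤ n := Nat.cast_nonneg n
      nlinarith
    have hstn := hst n hnN
    have hm : 2 * t * ‖P n‖ ≤ x n := by
      have h1 : θ / ((n : ℝ) + 1) ^ 2 ≤ θ := div_le_self hθ.le hsq
      have h2 : θ / ((n : ℝ) + 1) ^ 2 * x n ≤ θ * x n := mul_le_mul_of_nonneg_right h1 hxn.le
      have h3 : 4 * θ * x n ≤ 1 * x n := mul_le_mul_of_nonneg_right h4 hxn.le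
      nlinarith
    have hxn1 : ∀ i < n + 1, ‖y i - z i‖ ≤ x i := by
      intro i hi
      rcases Nat.lt_succ_iff_lt_or_eq.mp hi with h | h
      · exact hx i h
      · subst h
        exact le_trans hy hm
    have hnl := ho.nl n (y n) (z n) (2 * t * ‖P n‖) hy (by
      rw [sub_self, norm_zero]; positivity) hm
    have hrat : t * ‖P n‖ / x n ≤ θ / ((n : ℝ) + 1) ^ 2 := by
      rw [div_le_iff₀ hxn]
      exact hstn
    have hnl2 : ‖f (y n) - f (z n) - D n * (y n - z n)‖ ≤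
        4 * C₂ * θ * t * (1 / ((n : ℝ) + 1) ^ 2) * ‖P (n + 1)‖ := by
      refine le_trans hnl ?_
      rw [ho.Ps n, norm_mul]
      have hD : 0 ≤ ‖D n‖ := norm_nonneg _
      have hc := ho.C₂nn
      have h1 : 2 * t * ‖P n‖ / x n ≤ 2 * (θ / ((n : ℝ) + 1) ^ 2) := by
        have : 2 * t * ‖P n‖ / x n = 2 * (t * ‖P n‖ / x n) := by ring
        rw [this]
        linarith
      calc C₂ * ‖D n‖ * (2 * t * ‖P n‖ / x n) * ‖y n - z n‖
          ≤ C₂ * ‖D n‖ * (2 * (θ / ((n : ℝ) + 1) ^ 2)) * (2 * t * ‖P n‖) := by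
            refine mul_le_mul ?_ hy (norm_nonneg _) (by positivity)
            exact mul_le_mul_of_nonneg_left h1 (by positivity)
        _ = 4 * C₂ * θ * t * (1 / ((n : ℝ) + 1) ^ 2) * (‖D n‖ * ‖P n‖) := by ring
    have hE1 : y (n + 1) - z (n + 1) - P (n + 1) * ((y 0 - z 0) +
        ∑ i ∈ Finset.range (n + 1), (y (i + 1) - f (y i)) / P (i + 1)) =
        (f (y n) - f (z n) - D n * (y n - z n)) + D n * (y n - z n - P n * ((y 0 - z 0) +
        ∑ i ∈ Finset.range n, (y (i + 1) - f (y i)) / P (i + 1))) := by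
      rw [Finset.sum_range_succ, ← add_assoc, mul_add,
        mul_div_cancel₀ _ (P_ne ho (n + 1)), ho.zs n, ho.Ps n]
      ring
    have hE2 : ‖y (n + 1) - z (n + 1) - P (n + 1) * ((y 0 - z 0) +
        ∑ i ∈ Finset.range (n + 1), (y (i + 1) - f (y i)) / P (i + 1))‖ ≤
        4 * C₂ * θ * t * (∑ i ∈ Finset.range (n + 1), 1 / ((i : ℝ) + 1) ^ 2) * ‖P (n + 1)‖ := by
      rw [hE1]
      refine le_trans (norm_add_le _ _) ?_
      rw [norm_mul (D n), Finset.sum_range_succ]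
      have h1 : ‖D n‖ * ‖y n - z n - P n * ((y 0 - z 0) +
          ∑ i ∈ Finset.range n, (y (i + 1) - f (y i)) / P (i + 1))‖ ≤
          ‖D n‖ * (4 * C₂ * θ * t * (∑ i ∈ Finset.range n, 1 / ((i : ℝ) + 1) ^ 2) * ‖P n‖) :=
        mul_le_mul_of_nonneg_left hE (norm_nonneg _)
      have h2 : ‖P (n + 1)‖ = ‖D n‖ * ‖P n‖ := by rw [ho.Ps n, norm_mul]
      rw [h2] at hnl2 ⊢
      calc _ ≤ 4 * C₂ * θ * t * (1 / ((n : ℝ) + 1) ^ 2) * (‖D n‖ * ‖P n‖) +
            ‖D n‖ * (4 * C₂ * θ * t * (∑ i ∈ Finset.range n, 1 / ((i : ℝ) + 1) ^ 2) * ‖P n‖) :=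
            add_le_add hnl2 h1
        _ = _ := by ring
    exact ⟨hxn1, key (n + 1) hn hxn1 hE2, hE2⟩

lemma fol_diff (ho : Orb f z P D x C₂ S₀) {θ : ℝ} (hθ : 0 < θ) (h16 : 16 * C₂ * θ ≤ 1)
    (h4 : 4 * θ ≤ 1) {N : ℕ} {t e : ℝ} {y y' : ℕ → ℂ} (ht : 0 < t) (he0 : 0 ≤ e)
    (he : ∀ i < N, ‖y i - z i‖ ≤ x i → ‖y (i + 1) - f (y i)‖ ≤ e)
    (h0 : ‖y 0 - z 0‖ + S₀ * e ≤ t)
    (hst : ∀ i < N, t * ‖P i‖ ≤ θ / ((i : ℝ) + 1) ^ 2 * x i)
    (hy0 : y' 0 = y 0) (hy' : ∀ i < N, y' (i + 1) = f (y' i)) :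
    ∀ n ≤ N, ‖y n - y' n‖ ≤ Real.exp (2 * C₂ * θ * ∑ i ∈ Finset.range n, 1 / ((i : ℝ) + 1) ^ 2) *
      (e * ∑ i ∈ Finset.range n, ‖P (i + 1)‖⁻¹) * ‖P n‖ := by
  have hy1 := fol_main ho hθ h16 h4 ht he0 he h0 hst
  have hy2 := fol_main (y := y') ho hθ h16 h4 ht he0 (fun i hi _ => by
    rw [hy' i hi, sub_self, norm_zero]; exact he0) (by rw [hy0]; exact h0) hst
  intro n
  induction n with
  | zero =>
    intro _
    simp [hy0]
  | succ n ih =>
    intro hn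
    have ih' := ih (by omega)
    have hnN : n < N := by omega
    have hPn : 0 < ‖P n‖ := norm_pos_iff.mpr (P_ne ho n)
    have hPn1 : 0 < ‖P (n + 1)‖ := norm_pos_iff.mpr (P_ne ho (n + 1))
    have hxn : 0 < x n := ho.xpos n
    have hsq : (1 : ℝ) ≤ ((n : ℝ) + 1) ^ 2 := by
      have : (0 : ℝ) ≤ n := Nat.cast_nonneg n
      nlinarith
    have hstn := hst n hnN
    have hc := ho.C₂nn
    have hm : 2 * t * ‖P n‖ ≤ x n := by
      have h1 : θ / ((n : ℝ) + 1) ^ 2 ≤ θ := div_le_self hθ.le hsq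
      have h2 : θ / ((n : ℝ) + 1) ^ 2 * x n ≤ θ * x n := mul_le_mul_of_nonneg_right h1 hxn.le
      have h3 : 4 * θ * x n ≤ 1 * x n := mul_le_mul_of_nonneg_right h4 hxn.le
      nlinarith
    have hnl := ho.nl n (y n) (y' n) (2 * t * ‖P n‖) (hy1 n (by omega)).2.1
      (hy2 n (by omega)).2.1 hm
    have hrat : 2 * t * ‖P n‖ / x n ≤ 2 * (θ / ((n : ℝ) + 1) ^ 2) := by
      have h1 : t * ‖P n‖ / x n ≤ θ / ((n : ℝ) + 1) ^ 2 := by
        rw [div_le_iff₀ hxn]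
        exact hstn
      have : 2 * t * ‖P n‖ / x n = 2 * (t * ‖P n‖ / x n) := by ring
      rw [this]
      linarith
    set a : ℝ := 2 * C₂ * θ * (1 / ((n : ℝ) + 1) ^ 2) with ha
    have ha0 : 0 ≤ a := by positivity
    have hnl2 : ‖f (y n) - f (y' n) - D n * (y n - y' n)‖ ≤ ‖D n‖ * a * ‖y n - y' n‖ := by
      refine le_trans hnl ?_
      refine mul_le_mul_of_nonneg_right ?_ (norm_nonneg _)
      calc C₂ * ‖D n‖ * (2 * t * ‖P n‖ / x n) ≤ C₂ * ‖D n‖ * (2 * (θ / ((n : ℝ) + 1) ^ 2)) :=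
            mul_le_mul_of_nonneg_left hrat (by positivity)
        _ = ‖D n‖ * a := by rw [ha]; ring
    have herr : ‖y (n + 1) - f (y n)‖ ≤ e :=
      he n hnN ((hy1 (n + 1) hn).1 n (Nat.lt_succ_self n))
    have hsplit : y (n + 1) - y' (n + 1) = (y (n + 1) - f (y n)) +
        (f (y n) - f (y' n) - D n * (y n - y' n)) + D n * (y n - y' n) := by
      rw [hy' n hnN]
      ring
    have hstep : ‖y (n + 1) - y' (n + 1)‖ ≤ e + (1 + a) * (‖D n‖ * ‖y n - y' n‖) := by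
      rw [hsplit]
      refine le_trans (norm_add_le _ _) ?_
      refine le_trans (add_le_add (norm_add_le _ _) le_rfl) ?_
      rw [norm_mul]
      nlinarith [hnl2, herr]
    set S : ℝ := ∑ i ∈ Finset.range n, ‖P (i + 1)‖⁻¹ with hS
    have hSnn : 0 ≤ S := Finset.sum_nonneg fun i _ => by positivity
    set W : ℝ := Real.exp (2 * C₂ * θ * ∑ i ∈ Finset.range n, 1 / ((i : ℝ) + 1) ^ 2) with hW
    have hWpos : 0 < W := Real.exp_pos _
    have hW1 : 1 ≤ W := by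
      rw [hW]
      apply Real.one_le_exp
      exact mul_nonneg (by positivity) (sum_inv_sq_nn n)
    have hWn : Real.exp (2 * C₂ * θ * ∑ i ∈ Finset.range (n + 1), 1 / ((i : ℝ) + 1) ^ 2) =
        W * Real.exp a := by
      rw [hW, ← Real.exp_add, Finset.sum_range_succ, mul_add]
    rw [hWn, Finset.sum_range_succ]
    have hea : 1 + a ≤ Real.exp a := by
      have := Real.add_one_le_exp a
      linarith
    have hea1 : 1 ≤ Real.exp a := by linarith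
    have hP2 : ‖P (n + 1)‖ = ‖D n‖ * ‖P n‖ := by rw [ho.Ps n, norm_mul]
    have h1 : ‖D n‖ * ‖y n - y' n‖ ≤ W * (e * S) * ‖P (n + 1)‖ := by
      rw [hP2]
      calc ‖D n‖ * ‖y n - y' n‖ ≤ ‖D n‖ * (W * (e * S) * ‖P n‖) :=
            mul_le_mul_of_nonneg_left ih' (norm_nonneg _)
        _ = _ := by ring
    have h2 : (1 + a) * (‖D n‖ * ‖y n - y' n‖) ≤ Real.exp a * (W * (e * S) * ‖P (n + 1)‖) := by
      refine mul_le_mul hea h1 (by positivity) (by positivity)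
    have h3 : e ≤ W * Real.exp a * (e * ‖P (n + 1)‖⁻¹) * ‖P (n + 1)‖ := by
      have : W * Real.exp a * (e * ‖P (n + 1)‖⁻¹) * ‖P (n + 1)‖ = W * Real.exp a * e := by
        rw [mul_assoc (W * Real.exp a), mul_assoc e, inv_mul_cancel₀ hPn1.ne', mul_one]
      rw [this]
      have h5 : 1 ≤ W * Real.exp a := by nlinarith
      nlinarith
    calc ‖y (n + 1) - y' (n + 1)‖ ≤ e + (1 + a) * (‖D n‖ * ‖y n - y' n‖) := hstep
      _ ≤ W * Real.exp a * (e * ‖P (n + 1)‖⁻¹) * ‖P (n + 1)‖ +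
          Real.exp a * (W * (e * S) * ‖P (n + 1)‖) := add_le_add h3 h2
      _ = _ := by ring

end

theorem t_FOL : S_FOL := by
  intro f z P D x C₂ S₀ ho θ hθ h16 h4 N t e y ht he0 he h0 hst
  have hmain := fol_main ho hθ h16 h4 ht he0 he h0 hst
  refine ⟨?_, ?_, ?_⟩
  · intro n hn
    exact (hmain (n + 1) (by omega)).1 n (Nat.lt_succ_self n)
  · intro n hn
    obtain ⟨_, h2, h3⟩ := hmain n hn
    refine ⟨h2, le_trans h3 ?_⟩
    have hs := sum_inv_sq_two n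
    have hc := ho.C₂nn
    have hPn : 0 ≤ ‖P n‖ := norm_nonneg _
    refine mul_le_mul_of_nonneg_right ?_ hPn
    calc 4 * C₂ * θ * t * (∑ i ∈ Finset.range n, 1 / ((i : ℝ) + 1) ^ 2)
        ≤ 4 * C₂ * θ * t * 2 := mul_le_mul_of_nonneg_left hs (by positivity)
      _ = 8 * C₂ * θ * t := by ring
  · intro y' hy0 hy' n hn
    have h := fol_diff ho hθ h16 h4 ht he0 he h0 hst hy0 hy' n hn
    refine le_trans h ?_
    have hPn : 0 ≤ ‖P n‖ := norm_nonneg _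
    refine mul_le_mul_of_nonneg_right ?_ hPn
    have hs := sum_inv_sq_two n
    have hs' := sum_inv_sq_nn n
    have hc := ho.C₂nn
    have hexp : Real.exp (2 * C₂ * θ * ∑ i ∈ Finset.range n, 1 / ((i : ℝ) + 1) ^ 2) ≤ 3 := by
      have h1 : 2 * C₂ * θ * ∑ i ∈ Finset.range n, 1 / ((i : ℝ) + 1) ^ 2 ≤ 1 := by
        have : 2 * C₂ * θ * ∑ i ∈ Finset.range n, 1 / ((i : ℝ) + 1) ^ 2 ≤ 2 * C₂ * θ * 2 :=
          mul_le_mul_of_nonneg_left hs (by positivity)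
        have h5 : 0 ≤ C₂ * θ := by positivity
        nlinarith
      have h2 := Real.exp_le_exp.mpr h1
      have h3 := Real.exp_one_lt_d9
      linarith
    have hS := ho.sum n
    have hSnn : 0 ≤ ∑ i ∈ Finset.range n, ‖P (i + 1)‖⁻¹ :=
      Finset.sum_nonneg fun i _ => by positivity
    calc Real.exp (2 * C₂ * θ * ∑ i ∈ Finset.range n, 1 / ((i : ℝ) + 1) ^ 2) *
          (e * ∑ i ∈ Finset.range n, ‖P (i + 1)‖⁻¹) ≤ 3 * (e * S₀) := by
          refine mul_le_mul hexp ?_ (by positivity) (by norm_num)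
          exact mul_le_mul_of_nonneg_left hS he0
      _ = 3 * S₀ * e := by ring

end Pool.Agent.H501.AD211
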